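import Pool.Agent.Helper51.LT.St

set_option autoImplicit false

namespace Pool.Agent.Helper84.LT

open Complex MeasureTheory Set Metric Filter Topology
open scoped Real ENNReal
open Pool.Agent.Helper51.LT

private theorem norm_deriv_zero_le (g : ℂ → ℂ) (hg : BU g) (h0 : g 0 = 0) :
    ‖deriv g 0‖ ≤ 1 := by
  have hm : MapsTo g (ball (0 : ℂ) 1) (closedBall (g 0) 1) := by
    intro z hz
    rw [h0, mem_closedBall_zero_iff]
    exact hg.2 z hz
  have h := Complex.norm_deriv_le_div_of_mapsTo_ball hg.1.1 hm one_pos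
  simpa using h

private theorem log_pow_bound (γ' δ x : ℝ) (hγ : 0 ≤ γ') (hδ : 0 < δ) (hx : 1 ≤ x) :
    (1 + Real.log x) ^ γ' ≤ (1 + (γ' + 1) / δ) ^ γ' * x ^ δ := by
  have hx0 : (0 : ℝ) < x := by linarith
  have he : 0 < δ / (γ' + 1) := by positivity
  have h1 : Real.log x ≤ x ^ (δ / (γ' + 1)) / (δ / (γ' + 1)) := Real.log_le_rpow_div hx0.le he
  have h2 : (1 : ℝ) ≤ x ^ (δ / (γ' + 1)) := Real.one_le_rpow hx he.le
  have hL : 0 ≤ Real.log x := Real.log_nonneg hx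
  have h3 : 1 + Real.log x ≤ (1 + (γ' + 1) / δ) * x ^ (δ / (γ' + 1)) := by
    have h4 : x ^ (δ / (γ' + 1)) / (δ / (γ' + 1)) = (γ' + 1) / δ * x ^ (δ / (γ' + 1)) := by
      field_simp
    rw [h4] at h1
    nlinarith
  have h5 : (0 : ℝ) ≤ 1 + (γ' + 1) / δ := by positivity
  calc (1 + Real.log x) ^ γ' ≤ ((1 + (γ' + 1) / δ) * x ^ (δ / (γ' + 1))) ^ γ' :=
        Real.rpow_le_rpow (by linarith) h3 hγ
    _ = (1 + (γ' + 1) / δ) ^ γ' * (x ^ (δ / (γ' + 1))) ^ γ' :=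
        Real.mul_rpow h5 (by positivity)
    _ = (1 + (γ' + 1) / δ) ^ γ' * x ^ (δ / (γ' + 1) * γ') := by
        rw [← Real.rpow_mul hx0.le]
    _ ≤ (1 + (γ' + 1) / δ) ^ γ' * x ^ δ := by
        refine mul_le_mul_of_nonneg_left ?_ (by positivity)
        refine Real.rpow_le_rpow_of_exponent_le hx ?_
        rw [div_mul_eq_mul_div, div_le_iff₀ (by positivity)]
        nlinarith

theorem hHump (hD2 : StD2) (hSym : StSym) (hIms : StIms) (hImb : StImb) : StHump := by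
  intro γ' γ hγ' hγ hHU N₀ A0 K0 hN₀
  obtain ⟨A, hA⟩ : ∃ A : ℝ, A = max A0 1 := ⟨_, rfl⟩
  obtain ⟨K, hK⟩ : ∃ K : ℝ, K = max K0 1 := ⟨_, rfl⟩
  have hA1 : 1 ≤ A := hA ▸ le_max_right _ _
  have hA0 : A0 ≤ A := hA ▸ le_max_left _ _
  have hK1 : 1 ≤ K := hK ▸ le_max_right _ _
  have hK0 : K0 ≤ K := hK ▸ le_max_left _ _
  have hN₀' : (1 : ℝ) ≤ N₀ := by exact_mod_cast hN₀
  have hδ : 0 < γ - γ' := by linarith
  have hπ := Real.pi_pos
  obtain ⟨C₃, hC₃⟩ : ∃ C₃ : ℝ, C₃ = (1 + (γ' + 1) / (γ - γ')) ^ γ' := ⟨_, rfl⟩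
  have hC₃0 : 0 ≤ C₃ := by rw [hC₃]; positivity
  obtain ⟨C₄, hC₄⟩ : ∃ C₄ : ℝ, C₄ = K * ((4 * N₀ * A) ^ γ' * C₃) := ⟨_, rfl⟩
  have hC₄0 : 0 ≤ C₄ := by rw [hC₄]; positivity
  obtain ⟨g₀, r, hg₀, hr0, hr1, hbig⟩ := hHU (4 * C₄ + 4 * π)
  have hr1' : 0 < 1 - r := by linarith
  obtain ⟨x, hx⟩ : ∃ x : ℝ, x = 1 / (1 - r) := ⟨_, rfl⟩
  have hx0 : 0 < x := by rw [hx]; positivity
  have hx1 : 1 ≤ x := by
    rw [hx, le_div_iff₀ hr1']; linarith
  have hxr : x * (1 - r) = 1 := by rw [hx]; field_simp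
  have hxγ : (1 - r) ^ (-γ) = x ^ γ := by
    rw [Real.rpow_neg hr1'.le, ← Real.inv_rpow hr1'.le, hx, one_div]
  rw [hxγ] at hbig
  have hxγ1 : 1 ≤ x ^ γ := Real.one_le_rpow hx1 (by linarith)
  have himb := hImb g₀ r hg₀ hr0 hr1
  -- x > 2
  have hx2 : 2 < x := by
    have h1 : 4 * π < 2 * π / (1 - r) := by nlinarith
    rw [lt_div_iff₀ hr1'] at h1
    have h2 : 2 * (1 - r) < 1 := by
      by_contra hc
      push Not at hc
      nlinarith
    nlinarith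
  have hr2 : 1 / 2 ≤ r := by
    have : 2 * (1 - r) ≤ x * (1 - r) := by nlinarith
    linarith
  -- the function g
  obtain ⟨g, hg⟩ : ∃ g : ℂ → ℂ, g = fun z => (g₀ z - g₀ 0) / 2 := ⟨_, rfl⟩
  have h00 : (0 : ℂ) ∈ ball (0 : ℂ) 1 := mem_ball_self one_pos
  have hgBU : BU g := by
    refine ⟨⟨?_, ?_⟩, ?_⟩
    · rw [hg]
      exact (hg₀.1.1.sub_const _).div_const _
    · intro a ha b hb hab
      rw [hg] at hab
      simp only at hab
      refine hg₀.1.2 ha hb ?_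
      have h2 : (2 : ℂ) ≠ 0 := two_ne_zero
      field_simp at hab
      exact sub_left_injective hab
    · intro z hz
      rw [hg]
      simp only [norm_div, Complex.norm_ofNat]
      have h1 := norm_sub_le (g₀ z) (g₀ 0)
      have h2 := hg₀.2 z hz
      have h3 := hg₀.2 0 h00
      linarith
  have hg0 : g 0 = 0 := by rw [hg]; simp
  have hdg : ∀ z, deriv g z = deriv g₀ z / 2 := by
    intro z
    rw [hg, deriv_div_const, deriv_sub_const]
  have hIMg : IM g r = IM g₀ r / 2 := by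
    unfold IM
    rw [← intervalIntegral.integral_div]
    refine intervalIntegral.integral_congr fun t _ => ?_
    simp only [hdg, norm_div, Complex.norm_ofNat]
  obtain ⟨a, ha⟩ : ∃ a : ℝ, a = ‖deriv g 0‖ := ⟨_, rfl⟩
  have ha1 : a ≤ 1 := ha ▸ norm_deriv_zero_le g hgBU hg0
  -- a x^4 > 1
  have hptw : ∀ t : ℝ, ‖deriv g (circleMap 0 r t)‖ ≤ a * x ^ 4 := by
    intro t
    have hn : ‖circleMap 0 r t‖ = r := by simp [abs_of_pos hr0]
    have h := (hD2 g 1 (circleMap 0 r t) 0 one_pos hgBU.1 (by rw [hn]; exact hr1) le_rfl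
      zero_le_one).2
    rw [hn] at h
    simp only [zero_mul, sub_zero, one_pow, one_mul, Complex.ofReal_zero] at h
    rw [← ha] at h
    have hx4 : x ^ 4 * (1 - r) ^ 4 = 1 := by rw [← mul_pow, hxr, one_pow]
    have hx4p : 0 < x ^ 4 := by positivity
    calc ‖deriv g (circleMap 0 r t)‖ = x ^ 4 * ((1 - r) ^ 4 * ‖deriv g (circleMap 0 r t)‖) := by
          rw [← mul_assoc, hx4, one_mul]
      _ ≤ x ^ 4 * a := mul_le_mul_of_nonneg_left h hx4p.le
      _ = a * x ^ 4 := mul_comm _ _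
  have hIMup : IM g r ≤ 2 * π * (a * x ^ 4) := by
    unfold IM
    have hle := intervalIntegral.norm_integral_le_of_norm_le_const
      (f := fun t : ℝ => ‖deriv g (circleMap 0 r t)‖) (a := (0 : ℝ)) (b := 2 * π) (C := a * x ^ 4)
      (fun t _ => by rw [norm_norm]; exact hptw t)
    have h1 := (le_abs_self _).trans hle
    rw [sub_zero, abs_of_pos (by positivity)] at h1
    linarith
  have hax : 1 < a * x ^ 4 := by
    have h1 : 4 * π < IM g₀ r := by nlinarith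
    rw [hIMg] at hIMup
    have h2 : 2 * π * 1 < 2 * π * (a * x ^ 4) := by linarith
    exact lt_of_mul_lt_mul_left h2 (by positivity)
  have ha0 : 0 < a := by
    by_contra hc
    push Not at hc
    have : a * x ^ 4 ≤ 0 := mul_nonpos_of_nonpos_of_nonneg hc (by positivity)
    linarith
  obtain ⟨L, hL⟩ : ∃ L : ℝ, L = Real.log x := ⟨_, rfl⟩
  have hL0 : 0 ≤ L := hL ▸ Real.log_nonneg hx1
  have hloga : -Real.log a ≤ 4 * L := by
    have h1 : 0 < Real.log (a * x ^ 4) := Real.log_pos hax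
    rw [Real.log_mul ha0.ne' (by positivity), Real.log_pow, ← hL] at h1
    push_cast at h1
    linarith
  -- the exponent N
  obtain ⟨T, hT⟩ : ∃ T : ℕ, T = ⌈A * (1 + 4 * L)⌉₊ := ⟨_, rfl⟩
  have hT1 : A * (1 + 4 * L) ≤ T := hT ▸ Nat.le_ceil _
  have hT2 : (T : ℝ) ≤ A * (1 + 4 * L) + 1 := by
    rw [hT]; exact (Nat.ceil_lt_add_one (by positivity)).le
  obtain ⟨N, hN⟩ : ∃ N : ℕ, N = N₀ * T := ⟨_, rfl⟩
  have hNr : (N : ℝ) = N₀ * T := by rw [hN]; push_cast; ring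
  have hTpos : (0 : ℝ) < T := lt_of_lt_of_le (by positivity) hT1
  have hNT : (T : ℝ) ≤ N := by rw [hNr]; nlinarith
  have hNA : A * (1 + 4 * L) ≤ N := hT1.trans hNT
  have hNAA : A ≤ N := by nlinarith
  have hNpos : (0 : ℝ) < N := by linarith
  have hN1 : 1 ≤ N := by exact_mod_cast (by linarith : (1 : ℝ) ≤ N)
  have hNup : (N : ℝ) ≤ 4 * N₀ * A * (1 + L) := by
    rw [hNr]
    have h1 : (T : ℝ) ≤ 4 * A * (1 + L) := by nlinarith
    calc (N₀ : ℝ) * T ≤ N₀ * (4 * A * (1 + L)) := mul_le_mul_of_nonneg_left h1 (by linarith)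
      _ = 4 * N₀ * A * (1 + L) := by ring
  obtain ⟨h, hhBU, hh0, hhSy, hhd, hhlow⟩ := hSym g N hgBU hg0 hN1
  rw [← ha] at hhd
  obtain ⟨lam, hlam⟩ : ∃ lam : ℝ, lam = a ^ (1 / (N : ℝ)) := ⟨_, rfl⟩
  obtain ⟨ρ, hρ⟩ : ∃ ρ : ℝ, ρ = r ^ (1 / (N : ℝ)) := ⟨_, rfl⟩
  have hexpo : 0 < 1 / (N : ℝ) := by positivity
  have key : ∀ y : ℝ, 0 < y → N * (1 - y ^ (1 / (N : ℝ))) ≤ -Real.log y := by
    intro y hy
    have h1 : y ^ (1 / (N : ℝ)) = Real.exp (Real.log y * (1 / (N : ℝ))) :=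
      Real.rpow_def_of_pos hy _
    have h2 := Real.add_one_le_exp (Real.log y * (1 / (N : ℝ)))
    have h3 : (N : ℝ) * (Real.log y * (1 / (N : ℝ))) = Real.log y := by field_simp
    rw [h1]
    nlinarith
  have hlam0 : 0 < lam := hlam ▸ Real.rpow_pos_of_pos ha0 _
  have hlam1 : lam ≤ 1 := hlam ▸ Real.rpow_le_one ha0.le ha1 hexpo.le
  have hρ0 : 0 < ρ := hρ ▸ Real.rpow_pos_of_pos hr0 _
  have hρ1 : ρ < 1 := hρ ▸ Real.rpow_lt_one hr0.le hr1 hexpo
  have hAlam : A * (1 - lam) ≤ 1 := by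
    have h1 := key a ha0
    rw [← hlam] at h1
    have h2 : N * (1 - lam) ≤ 4 * L := h1.trans hloga
    have h3 : A * (1 + 4 * L) * (1 - lam) ≤ 4 * L :=
      (mul_le_mul_of_nonneg_right hNA (by linarith)).trans h2
    by_contra hc
    push Not at hc
    have h4 : (1 + 4 * L) * 1 < (1 + 4 * L) * (A * (1 - lam)) :=
      mul_lt_mul_of_pos_left hc (by linarith)
    nlinarith
  have hAρ : A * (1 - ρ) ≤ 1 := by
    have h1 := key r hr0
    rw [← hρ] at h1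
    have h2 : -Real.log r ≤ 1 := by
      have h3 := Real.one_sub_inv_le_log_of_pos hr0
      have h4 : r⁻¹ ≤ 2 := by
        rw [inv_le_comm₀ hr0 (by norm_num)]
        linarith
      linarith
    have h3 : A * (1 - ρ) ≤ N * (1 - ρ) := mul_le_mul_of_nonneg_right hNAA (by linarith)
    linarith
  have hρN : ρ ^ N = r := by
    rw [hρ, one_div]
    exact Real.rpow_inv_natCast_pow hr0.le (by omega)
  have hρlow : (1 - r) / N ≤ 1 - ρ := by
    have h1 := one_add_mul_le_pow (show (-2 : ℝ) ≤ ρ - 1 by linarith) N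
    rw [show 1 + (ρ - 1) = ρ by ring, hρN] at h1
    rw [div_le_iff₀ hNpos]
    linarith
  have hfin := hIms g h N r hgBU hhBU hN1 hr0 hr1 hhlow
  rw [← hρ, hIMg] at hfin
  have hlast : K * (1 - ρ) ^ (-γ') < IM h ρ := by
    have hq : 0 < (1 - r) / N := by positivity
    have h1 : (1 - ρ) ^ (-γ') ≤ ((1 - r) / N) ^ (-γ') :=
      Real.rpow_le_rpow_of_nonpos hq hρlow (by linarith)
    have h2 : ((1 - r) / N) ^ (-γ') = (N * x) ^ γ' := by
      rw [Real.rpow_neg hq.le, ← Real.inv_rpow hq.le]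
      congr 1
      rw [hx]
      field_simp
    have h3 : (N * x) ^ γ' ≤ (4 * N₀ * A) ^ γ' * C₃ * x ^ γ := by
      calc (N * x) ^ γ' ≤ (4 * N₀ * A * (1 + L) * x) ^ γ' :=
            Real.rpow_le_rpow (by positivity) (mul_le_mul_of_nonneg_right hNup hx0.le) hγ'
        _ = (4 * N₀ * A) ^ γ' * (1 + L) ^ γ' * x ^ γ' := by
            rw [Real.mul_rpow (by positivity) hx0.le, Real.mul_rpow (by positivity) (by positivity)]
        _ ≤ (4 * N₀ * A) ^ γ' * (C₃ * x ^ (γ - γ')) * x ^ γ' := by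
            refine mul_le_mul_of_nonneg_right (mul_le_mul_of_nonneg_left ?_ (by positivity))
              (by positivity)
            rw [hC₃, hL]
            exact log_pow_bound γ' (γ - γ') x hγ' hδ hx1
        _ = (4 * N₀ * A) ^ γ' * C₃ * (x ^ (γ - γ') * x ^ γ') := by ring
        _ = (4 * N₀ * A) ^ γ' * C₃ * x ^ γ := by
            rw [← Real.rpow_add hx0]; ring_nf
    have h4 : K * (1 - ρ) ^ (-γ') ≤ C₄ * x ^ γ := by
      calc K * (1 - ρ) ^ (-γ') ≤ K * ((4 * N₀ * A) ^ γ' * C₃ * x ^ γ) :=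
            mul_le_mul_of_nonneg_left (h1.trans (h2.le.trans h3)) (by linarith)
        _ = C₄ * x ^ γ := by rw [hC₄]; ring
    have h5 : C₄ * x ^ γ < r * (IM g₀ r / 2) := by
      have h6 : 0 < IM g₀ r := by nlinarith
      nlinarith
    linarith
  refine ⟨h, ρ, lam, hhBU, hh0, ?_, hρ0, hρ1, ?_, hlam0, hlam1, ?_, ?_, ?_⟩
  · intro ω z hω hz
    refine hhSy ω z ?_ hz
    rw [hN, pow_mul, hω, one_pow]
  · exact (mul_le_mul_of_nonneg_right hA0 (by linarith)).trans hAρ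
  · rw [hhd, hlam]
  · exact (mul_le_mul_of_nonneg_right hA0 (by linarith)).trans hAlam
  · refine lt_of_le_of_lt (mul_le_mul_of_nonneg_right hK0 ?_) hlast
    exact Real.rpow_nonneg (by linarith) _

end Pool.Agent.Helper84.LT
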